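import Pool.Agent.Helper45.AM.GoalsA
import Pool.Agent.Helper45.AM.GoalsB
import Pool.Agent.Helper15.AM.GoalsG

/-!
# Project AM (MP_cc6379_al): packet AM-B7, the function a' and the preorders.
-/

set_option autoImplicit false

open LaurentPolynomial Pool.Agent.Helper15.RA Pool.Agent.Helper45.AM

noncomputable section

namespace Pool.Agent.Helper90.AM

open Pool.Agent.Helper15.AM (G_PA G_PC)

section

variable {S W H : Type} [Group W] [Ring H] [Algebra ℤ[T;T⁻¹] H] (X : AC S W H)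

theorem joint (hPA : G_PA) (hPC : G_PC) (hO : A_O) (hP : A_P) (h1 : B_1) (h5 : B_5) (h6 : B_6) (m : ℕ) :
    ∀ n : ℕ,
      (∀ x κ κ', X.cs.length x = n → XR X.cs X.K x → κ ∈ par X.cs X.K → X.leR X.K κ' κ →
        X.Ge m (x * κ) → X.Ge m (x * κ')) ∧
      (∀ b x l l', X.cs.length x = n → XR X.cs (X.F b) x → l ∈ par X.cs (X.F b) → X.leR (X.F b) l' l →
        X.Ge m (x * l) → X.Ge m (x * l')) := by
  obtain ⟨b1, -, b3, b4, -, b6, -⟩ := h1 S W H X
  obtain ⟨c1, c2, -⟩ := h5 S W H X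
  obtain ⟨d1, -⟩ := h6 S W H X
  have hKF : ∀ b, X.K ⊆ X.F b := by
    intro b i hi
    cases b
    · exact hi.2
    · exact hi.1
  have pK := hP S W H X.toBase X.K X.α X.pgK
  have pF := fun b => hP S W H X.toBase (X.F b) X.α (X.pg b)
  intro n
  induction n using Nat.strong_induction_on with
  | _ n ih =>
    have key2 : ∀ x κ κ', X.cs.length x = n → XR X.cs X.K x → κ ∈ par X.cs X.K → X.leR X.K κ' κ →
        X.Ge m (x * κ) → X.Ge m (x * κ') := by
      intro x κ κ' hn hx hκ hle hG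
      obtain ⟨hκ', hα⟩ := pK.2.2.1 κ' κ hκ hle
      obtain ⟨b, hb⟩ := b4 x hx
      by_cases hx1 : x = 1
      · subst hx1
        rw [one_mul] at hG ⊢
        rw [c2 b κ (b1 b hκ) m] at hG
        rw [c2 b κ' (b1 b hκ') m]
        exact hG.trans hα
      · obtain ⟨x', a, hxa, hx', ha, haK, ha1, hlen⟩ := b6 b x hb hx1
        have hla : X.cs.length a ≠ 0 := fun h => ha1 (X.cs.length_eq_zero_iff.1 h)
        have hle' : X.leR (X.F (!b)) (a * κ') (a * κ) :=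
          (hO S W H X.toBase X.K (X.F (!b))).2.2.1 (hKF _) a κ κ' haK hκ hle
        have := (ih (X.cs.length x') (by omega)).2 (!b) x' (a * κ) (a * κ') rfl hx'
          (mul_mem ha (b1 _ hκ)) hle' (by rw [← mul_assoc, ← hxa]; exact hG)
        rw [← mul_assoc, ← hxa] at this
        exact this
    refine ⟨key2, ?_⟩
    intro b x l l' hn hx hl hle hG
    obtain ⟨hl', hα⟩ := (pF b).2.2.1 l' l hl hle
    obtain ⟨-, -, -, e4, e5, -⟩ := hPC S W X.M X.cs X.K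
    obtain ⟨κ, hκ, y, hy, rfl⟩ := e4 l
    obtain ⟨κ', hκ', y', hy', rfl⟩ := e4 l'
    have hleK : X.leR X.K κ' κ :=
      (hO S W H X.toBase X.K (X.F b)).2.2.2.1 κ y κ' y' hκ hy hκ' hy' hle
    have hadd := (hPA S W X.M X.cs (X.F b)).2.2 x hx
    rcases d1 b x κ y hx hκ hy hl m hG with h | h
    · exact c1 m x (κ' * y') (hadd _ hl') (Or.inr ((c2 b _ hl' m).2 (h.trans hα)))
    · have h2 := key2 x κ κ' hn ((b3 b x).1 hx) hκ hleK h
      rw [← mul_assoc]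
      refine c1 m (x * κ') y' ?_ (Or.inl h2)
      rw [mul_assoc, hadd _ hl', hadd _ (b1 b hκ'), e5 y' hy' κ' hκ', add_assoc]

end

theorem h_b_7 (hPA : G_PA) (hPC : G_PC) (hM : A_M) (hO : A_O) (hP : A_P) (h1 : B_1) (h5 : B_5) (h6 : B_6) :
    Pool.Agent.Helper45.AM.B_7 := by
  intro S W H _ _ _ X m
  have J := joint X hPA hPC hO hP h1 h5 h6 m
  obtain ⟨-, -, m3, -, -, m6⟩ := hM S W H X.toBase
  obtain ⟨-, -, -, -, -, -, c7, -⟩ := h5 S W H X
  refine ⟨fun b x l l' => (J _).2 b x l l' rfl, fun x κ κ' => (J _).1 x κ κ' rfl, ?_, ?_⟩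
  · intro b y l l' hy hl hle hG
    rw [c7, mul_inv_rev]
    rw [c7, mul_inv_rev] at hG
    exact (J _).2 b y⁻¹ l⁻¹ l'⁻¹ rfl ((m3 _ _).1 hy) (inv_mem hl) ((m6 _ _ _).1 hle) hG
  · intro y κ κ' hy hκ hle hG
    rw [c7, mul_inv_rev]
    rw [c7, mul_inv_rev] at hG
    exact (J _).1 y⁻¹ κ⁻¹ κ'⁻¹ rfl ((m3 _ _).1 hy) (inv_mem hκ) ((m6 _ _ _).1 hle) hG

end Pool.Agent.Helper90.AM
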